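import Pool.Agent.H9.K2.Stmts2

/-!
# Sums along shifted graphs and over disjoint bands
-/

set_option autoImplicit false

namespace Pool.KA

open Finset Real

theorem psg_thm : PSGStmt := by
  intro f M hf hM r hr n x
  rw [Finset.sum_comm]
  have h : ∀ s ∈ range x, ∑ i ∈ range n, (f i (r i + s) - f (i + 1) (r i + s)) ≤ M := by
    intro s _
    have h1 : ∑ i ∈ range n, (f i (r i + s) - f (i + 1) (r i + s)) ≤
        ∑ i ∈ range n, (f i (r i + s) - f (i + 1) (r (i + 1) + s)) := by
      refine Finset.sum_le_sum fun i _ => ?_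
      have h2 := hf (i + 1) (r i + s) (i + 1) (r (i + 1) + s) le_rfl
        (Nat.add_le_add_right (hr (Nat.le_succ i)) s)
      linarith
    have h3 := Finset.sum_range_sub' (fun i => f i (r i + s)) n
    have h4 := (hM 0 (r 0 + s)).2
    have h5 := (hM n (r n + s)).1
    linarith
  refine (Finset.sum_le_sum h).trans ?_
  rw [Finset.sum_const, Finset.card_range, nsmul_eq_mul]

theorem pba_thm : PBAStmt := by
  intro f M hf hM w r n x hw hr
  have h1 : ∑ i ∈ range n, (f (w i) (r i) - f (w i) (r i + x)) ≤
      ∑ i ∈ range n, (f (w i) (r i) - f (w (i + 1)) (r (i + 1))) := by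
    refine Finset.sum_le_sum fun i _ => ?_
    have h2 := hf (w i) (r i + x) (w (i + 1)) (r (i + 1)) (hw (Nat.le_succ i)) (hr i)
    linarith
  have h3 := Finset.sum_range_sub' (fun i => f (w i) (r i)) n
  have h4 := (hM (w 0) (r 0)).2
  have h5 := (hM (w n) (r n)).1
  linarith

end Pool.KA
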